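import Pool.Agent.J4H64.MC.Def

set_option autoImplicit false

/-! # Project MC, (BIN): a circuit of unbounded fan-in as a monotone program for the dual -/

namespace Pool.Agent.J4H71.MC

open Finset Pool.Agent.H520R2 Pool.Agent.J4H64.MC

section Fold

variable {X : Type}

theorem anyP {B : Set (X → Bool)} (hB : (fun _ => false) ∈ B) {L : List (X → Bool)}
    (hL : MProg B L) : ∀ gs : List (X → Bool), (∀ g ∈ gs, Av B L g) →
    ∃ L', MProg B (L' ++ L) ∧ L'.length ≤ gs.length ∧
      Av B (L' ++ L) (fun x => gs.any (fun g => g x)) := by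
  intro gs
  induction gs with
  | nil => exact fun _ => ⟨[], hL, le_rfl, Or.inl (by simpa using hB)⟩
  | cons g gs ih =>
    intro h
    obtain ⟨L', h1, h2, h3⟩ := ih (fun g' hg' => h g' (List.mem_cons_of_mem _ hg'))
    refine ⟨(fun x => g x || gs.any (fun g => g x)) :: L', MProg.or h1 ?_ h3, ?_, ?_⟩
    · exact (h g List.mem_cons_self).mono L'
    · simp only [List.length_cons]
      omega
    · right
      have : (fun x => (g :: gs).any (fun g => g x)) = fun x => g x || gs.any (fun g => g x) := by
        funext x
        rw [List.any_cons]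
      rw [this]
      exact List.mem_cons_self

theorem allP {B : Set (X → Bool)} (hB : (fun _ => true) ∈ B) {L : List (X → Bool)}
    (hL : MProg B L) : ∀ gs : List (X → Bool), (∀ g ∈ gs, Av B L g) →
    ∃ L', MProg B (L' ++ L) ∧ L'.length ≤ gs.length ∧
      Av B (L' ++ L) (fun x => gs.all (fun g => g x)) := by
  intro gs
  induction gs with
  | nil => exact fun _ => ⟨[], hL, le_rfl, Or.inl (by simpa using hB)⟩
  | cons g gs ih =>
    intro h
    obtain ⟨L', h1, h2, h3⟩ := ih (fun g' hg' => h g' (List.mem_cons_of_mem _ hg'))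
    refine ⟨(fun x => g x && gs.all (fun g => g x)) :: L', MProg.and h1 ?_ h3, ?_, ?_⟩
    · exact (h g List.mem_cons_self).mono L'
    · simp only [List.length_cons]
      omega
    · right
      have : (fun x => (g :: gs).all (fun g => g x)) = fun x => g x && gs.all (fun g => g x) := by
        funext x
        rw [List.all_cons]
      rw [this]
      exact List.mem_cons_self

end Fold

section Ev

variable {I : Type} (C : Circ I)

open Classical in
/-- the valuation of the gates -/
noncomputable def ev (x : I → Bool) (j : Fin C.m) : Bool :=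
  if C.kind j = true then
    decide ((∀ i ∈ C.predIn j, x i = true) ∧ ∀ k : {k // k ∈ C.predG j}, ev x k.1 = true)
  else decide ((∃ i ∈ C.predIn j, x i = true) ∨ ∃ k : {k // k ∈ C.predG j}, ev x k.1 = true)
termination_by j.1
decreasing_by
  all_goals exact C.acyclic _ _ (Subtype.prop _)

theorem ev_true (x : I → Bool) (j : Fin C.m) (hj : C.kind j = true) : ev C x j = true ↔
    ((∀ i ∈ C.predIn j, x i = true) ∧ ∀ k ∈ C.predG j, ev C x k = true) := by
  rw [ev, if_pos hj, decide_eq_true_iff, Subtype.forall]

theorem ev_false (x : I → Bool) (j : Fin C.m) (hj : C.kind j = false) : ev C x j = true ↔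
    ((∃ i ∈ C.predIn j, x i = true) ∨ ∃ k ∈ C.predG j, ev C x k = true) := by
  rw [ev, if_neg (by rw [hj]; exact Bool.false_ne_true), decide_eq_true_iff, Subtype.exists]
  simp only [exists_prop]

theorem ev_val (x : I → Bool) : C.Val x (ev C x) := fun j =>
  ⟨fun hj => ev_true C x j hj, fun hj => ev_false C x j hj⟩

theorem val_eq (x : I → Bool) (v : Fin C.m → Bool) (hv : C.Val x v) :
    ∀ n : ℕ, ∀ j : Fin C.m, j.1 = n → (v j = true ↔ ev C x j = true) := by
  intro n
  induction n using Nat.strong_induction_on with
  | _ n ih =>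
    intro j hj
    have hk : ∀ k ∈ C.predG j, (v k = true ↔ ev C x k = true) := fun k hk =>
      ih k.1 (by rw [← hj]; exact C.acyclic j k hk) k rfl
    rcases hb : C.kind j with _ | _
    · rw [(hv j).2 hb, ev_false C x j hb]
      refine or_congr Iff.rfl ⟨?_, ?_⟩
      · rintro ⟨k, h1, h2⟩
        exact ⟨k, h1, (hk k h1).1 h2⟩
      · rintro ⟨k, h1, h2⟩
        exact ⟨k, h1, (hk k h1).2 h2⟩
    · rw [(hv j).1 hb, ev_true C x j hb]
      exact and_congr Iff.rfl (forall_congr' fun k => forall_congr' fun h1 => hk k h1)

theorem acc_iff (x : I → Bool) : C.Acc x ↔ ev C x C.o = true :=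
  ⟨fun ⟨v, hv, ho⟩ => (val_eq C x v hv _ C.o rfl).1 ho, fun h => ⟨ev C x, ev_val C x, h⟩⟩

end Ev

/-- (BIN) -/
theorem t_BIN : S_BIN := by
  intro I X _ C Bs z g ht hf hz hg
  have main : ∀ n ≤ C.m, ∃ L, MProg Bs L ∧ L.length ≤ n * (C.m + Fintype.card I) ∧
      ∀ j : Fin C.m, j.1 < n → Av Bs L (fun x => ! ev C (z x) j) := by
    intro n
    induction n with
    | zero => exact fun _ => ⟨[], MProg.nil, by simp, fun j hj => absurd hj (Nat.not_lt_zero _)⟩
    | succ n ih =>
      intro hn
      obtain ⟨L, h1, h2, h3⟩ := ih (by omega)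
      set j : Fin C.m := ⟨n, hn⟩ with hj
      set gs : List (X → Bool) := (C.predIn j).toList.map (fun i x => ! z x i) ++
        (C.predG j).toList.map (fun k x => ! ev C (z x) k) with hgs
      have hlen : gs.length ≤ C.m + Fintype.card I := by
        rw [hgs, List.length_append, List.length_map, List.length_map, length_toList,
          length_toList]
        have e1 := card_le_univ (C.predIn j)
        have e2 := card_le_univ (C.predG j)
        rw [Fintype.card_fin] at e2
        omega
      have hav : ∀ g ∈ gs, Av Bs L g := by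
        intro g hg
        rw [hgs, List.mem_append, List.mem_map, List.mem_map] at hg
        rcases hg with ⟨i, _, rfl⟩ | ⟨k, hk, rfl⟩
        · exact Or.inl (hz i)
        · exact h3 k (C.acyclic j k (mem_toList.1 hk))
      have key : ∃ L', MProg Bs (L' ++ L) ∧ L'.length ≤ gs.length ∧
          Av Bs (L' ++ L) (fun x => ! ev C (z x) j) := by
        rcases hb : C.kind j with _ | _
        · obtain ⟨L', a1, a2, a3⟩ := allP ht h1 gs hav
          refine ⟨L', a1, a2, ?_⟩
          convert a3 using 1
          funext x
          rw [Bool.eq_iff_iff, Bool.not_eq_true', ← Bool.not_eq_true, ev_false C (z x) j hb, hgs,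
            List.all_append, Bool.and_eq_true, List.all_eq_true, List.all_eq_true]
          simp only [List.mem_map, mem_toList, forall_exists_index, and_imp,
            forall_apply_eq_imp_iff₂, Bool.not_eq_true']
          push Not
          simp
        · obtain ⟨L', a1, a2, a3⟩ := anyP hf h1 gs hav
          refine ⟨L', a1, a2, ?_⟩
          convert a3 using 1
          funext x
          rw [Bool.eq_iff_iff, Bool.not_eq_true', ← Bool.not_eq_true, ev_true C (z x) j hb, hgs,
            List.any_append, Bool.or_eq_true, List.any_eq_true, List.any_eq_true]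
          simp only [List.mem_map, mem_toList, not_and_or]
          push Not
          simp
      obtain ⟨L', a1, a2, a3⟩ := key
      refine ⟨L' ++ L, a1, ?_, fun k hk => ?_⟩
      · rw [List.length_append, Nat.succ_mul]
        omega
      · rcases Nat.lt_succ_iff_lt_or_eq.1 hk with hk | hk
        · exact (h3 k hk).mono L'
        · have : k = j := Fin.ext hk
          rw [this]
          exact a3
  obtain ⟨L, h1, h2, h3⟩ := main C.m le_rfl
  refine ⟨L, h1, h2.trans (Nat.mul_le_mul_left _ (by omega)), ?_⟩
  have : g = fun x => ! ev C (z x) C.o := by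
    funext x
    rw [Bool.eq_iff_iff, hg x, acc_iff, Bool.not_eq_true', Bool.not_eq_true]
  rw [this]
  exact h3 C.o C.o.2

end Pool.Agent.J4H71.MC
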